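import Pool.Agent.H10.BT.Idn
import Pool.Agent.H10.BT.Ax
import Pool.Agent.H98.FJ.P.Ext0

/-!
# The Artin group of affine type `A` is in the class

`cmAt m` is the circuit with `m + 3` vertices. Its Artin group embeds in `Art (cmBf m)`.
-/

set_option autoImplicit false

namespace Pool.Agent.H10.CA

open Pool.Agent.H52.PAG Pool.Agent.H98.DT Pool.Agent.H10.DT Pool.Agent.H10.BT Pool.Agent.H98.FJ

/-- the labels of the circuit -/
def lA (m k l : ℕ) : ℕ :=
  if k = l then 1 else if k + 1 = l ∨ l + 1 = k ∨ (k = 0 ∧ l = m + 2) ∨ (k = m + 2 ∧ l = 0) then 3 else 2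

theorem lA_symm (m k l : ℕ) : lA m k l = lA m l k := by
  simp only [lA]
  split_ifs <;> omega

/-- the diagram of affine type `A` -/
def cmAt (m : ℕ) : CoxeterMatrix (Fin (m + 3)) where
  M := Matrix.of fun k l => lA m k l
  isSymm := by
    ext k l
    exact lA_symm _ _ _
  diagonal k := by simp [lA]
  off_diagonal k l h := by
    have h1 : k.val ≠ l.val := fun h1 => h (Fin.ext h1)
    simp only [Matrix.of_apply, lA, if_neg h1]
    split_ifs <;> omega

theorem cmAt_apply (m : ℕ) (k l : Fin (m + 3)) : cmAt m k l = lA m k l := rfl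

section Rel

variable {m : ℕ} {G : Type*} [Group G]

/-- the relations of affine type `A` -/
structure AtRel (a : Fin (m + 3) → G) : Prop where
  br : ∀ k l : Fin (m + 3), k.val + 1 = l.val → a k * a l * a k = a l * a k * a l
  brc : ∀ k l : Fin (m + 3), k.val = 0 → l.val = m + 2 → a k * a l * a k = a l * a k * a l
  co : ∀ k l : Fin (m + 3), k.val + 2 ≤ l.val → ¬ (k.val = 0 ∧ l.val = m + 2) → a k * a l = a l * a k

/-- homomorphisms from the Artin group of affine type `A` -/
def liftAt {a : Fin (m + 3) → G} (h : AtRel a) : Art (cmAt m) →* G :=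
  lift a fun k l _ => by
    rw [cmAt_apply]
    simp only [lA]
    split_ifs with h1 h2
    · rw [Fin.ext h1]
    · rw [alt_three, alt_three]
      rcases h2 with h2 | h2 | h2 | h2
      · exact h.br k l h2
      · exact (h.br l k h2).symm
      · exact h.brc k l h2.1 h2.2
      · exact (h.brc l k h2.2 h2.1).symm
    · rw [alt_two, alt_two]
      rcases lt_or_gt_of_ne h1 with h4 | h4
      · exact h.co k l (by omega) (by omega)
      · exact (h.co l k (by omega) (by omega)).symm

@[simp]
theorem liftAt_a {a : Fin (m + 3) → G} (h : AtRel a) (k : Fin (m + 3)) : liftAt h (gen _ k) = a k := lift_gen _ _ _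

theorem atrel_gen (m : ℕ) : AtRel (fun k : Fin (m + 3) => gen (cmAt m) k) where
  br k l h := by
    have h1 := gen_rel (M := cmAt m) (i := k) (j := l)
    have h2 : cmAt m k l = 3 := by
      rw [cmAt_apply]
      simp only [lA]
      rw [if_neg (by omega), if_pos (by omega)]
    rw [h2, alt_three, alt_three] at h1
    exact h1 (by decide)
  brc k l hk hl := by
    have h1 := gen_rel (M := cmAt m) (i := k) (j := l)
    have h2 : cmAt m k l = 3 := by
      rw [cmAt_apply]
      simp only [lA]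
      rw [if_neg (by omega), if_pos (by omega)]
    rw [h2, alt_three, alt_three] at h1
    exact h1 (by decide)
  co k l h h' := by
    have h1 := gen_rel (M := cmAt m) (i := k) (j := l)
    have h2 : cmAt m k l = 2 := by
      rw [cmAt_apply]
      simp only [lA]
      rw [if_neg (by omega), if_neg (by omega)]
    rw [h2, alt_two, alt_two] at h1
    exact h1 (by decide)

end Rel

section Abs

variable {H : Type*} [Group H]

/-- the image of the special generator -/
theorem th4 {a1 aN t δ D' E : H} (h1 : δ = a1 * E) (h2 : δ = D' * aN) (h3 : t * D' = E * t)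
    (h4 : t * t * aN = a1 * (t * t)) (h5 : δ * D' = E * δ) :
    (t * δ⁻¹) * a1 * (t * δ⁻¹) * a1 = a1 * (t * δ⁻¹) * a1 * (t * δ⁻¹) := by
  have e1 : t * δ⁻¹ * a1 = t * E⁻¹ := by rw [h1]; group
  have e2 : E⁻¹ * t = t * D'⁻¹ := by
    calc E⁻¹ * t = E⁻¹ * (t * D') * D'⁻¹ := by group
      _ = t * D'⁻¹ := by rw [h3]; group
  have e3 : D'⁻¹ * E⁻¹ = aN * D'⁻¹ * δ⁻¹ := by
    have e4 : δ * (D' * aN⁻¹) = E * D' := by
      calc δ * (D' * aN⁻¹) = (δ * D') * aN⁻¹ := by group
        _ = E * (D' * aN) * aN⁻¹ := by rw [h5, ← h2]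
        _ = E * D' := by group
    calc D'⁻¹ * E⁻¹ = (E * D')⁻¹ := by group
      _ = (δ * (D' * aN⁻¹))⁻¹ := by rw [e4]
      _ = _ := by group
  calc (t * δ⁻¹) * a1 * (t * δ⁻¹) * a1 = (t * δ⁻¹ * a1) * (t * δ⁻¹ * a1) := by group
    _ = t * (E⁻¹ * t) * E⁻¹ := by rw [e1]; group
    _ = t * t * (D'⁻¹ * E⁻¹) := by rw [e2]; group
    _ = (t * t * aN) * D'⁻¹ * δ⁻¹ := by rw [e3]; group
    _ = a1 * t * (t * D'⁻¹) * δ⁻¹ := by rw [h4]; group
    _ = a1 * (t * E⁻¹) * t * δ⁻¹ := by rw [← e2]; group
    _ = a1 * (t * δ⁻¹) * a1 * (t * δ⁻¹) := by rw [← e1]; group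

theorem map_DD {G : Type*} [Group G] (f : G →* H) (S : ℕ → G) (m : ℕ) : f (DD S m) = DD (fun k => f (S k)) m := by
  induction m with
  | zero => exact map_one f
  | succ m ih => rw [DD_succ, map_mul, ih]; rfl

theorem DD_congr {S T : ℕ → H} (m : ℕ) (h : ∀ k, 1 ≤ k → k ≤ m → S k = T k) : DD S m = DD T m := by
  induction m with
  | zero => rfl
  | succ m ih => rw [DD_succ, DD_succ, ih fun k h1 h2 => h k h1 (by omega), h (m + 1) (by omega) le_rfl]

/-- conjugation preserves the braid relation -/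
theorem cj3 {x y x' y' r : H} (h : x * y * x = y * x * y) (hx : r * x = x' * r) (hy : r * y = y' * r) :
    x' * y' * x' = y' * x' * y' := by
  have ex : x' = r * x * r⁻¹ := by rw [hx]; group
  have ey : y' = r * y * r⁻¹ := by rw [hy]; group
  rw [ex, ey]
  calc r * x * r⁻¹ * (r * y * r⁻¹) * (r * x * r⁻¹) = r * (x * y * x) * r⁻¹ := by group
    _ = r * (y * x * y) * r⁻¹ := by rw [h]
    _ = _ := by group

theorem cj2 {x y x' y' r : H} (h : x * y = y * x) (hx : r * x = x' * r) (hy : r * y = y' * r) :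
    x' * y' = y' * x' := by
  have ex : x' = r * x * r⁻¹ := by rw [hx]; group
  have ey : y' = r * y * r⁻¹ := by rw [hy]; group
  rw [ex, ey]
  calc r * x * r⁻¹ * (r * y * r⁻¹) = r * (x * y) * r⁻¹ := by group
    _ = r * (y * x) * r⁻¹ := by rw [h]
    _ = _ := by group

end Abs

section Emb

variable (m : ℕ)

/-- the generators of the group of type `B` -/
def SB (k : ℕ) : Art (cmBf m) := if h : k < m + 3 then gen _ ⟨k, h⟩ else 1

theorem SB_lt {k : ℕ} (h : k < m + 3) : SB m k = gen _ ⟨k, h⟩ := dif_pos h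

theorem SB_rel : HB (SB m) (m + 3) where
  b0 := by
    rw [SB_lt m (by omega : 0 < m + 3), SB_lt m (by omega : 1 < m + 3)]
    have h1 := (bfrel_gen m).b4
    have e1 : (⟨1, by omega⟩ : Fin (m + 3)) = 1 := Fin.ext (one_val m).symm
    rw [e1]
    exact h1
  braid k hk hkn := by
    rw [SB_lt m (by omega : k < m + 3), SB_lt m hkn]
    exact (bfrel_gen m).br ⟨k, by omega⟩ ⟨k + 1, hkn⟩ hk rfl
  comm j k hjk hk := by
    rw [SB_lt m (by omega : j < m + 3), SB_lt m hk]
    exact (bfrel_gen m).co ⟨j, by omega⟩ ⟨k, hk⟩ hjk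

/-- the rotation -/
def ro : Art (cmBf m) := SB m 0 * DD (SB m) (m + 2)

theorem ro_SB (k : ℕ) (hk : 1 ≤ k) (hk2 : k + 1 ≤ m + 2) : ro m * SB m k = SB m (k + 1) * ro m := by
  have h1 := (SB_rel m).D_shift k (m + 2) hk hk2 (by omega)
  have h2 := (SB_rel m).comm 0 (k + 1) (by omega) (by omega)
  rw [ro, mul_assoc, h1, ← mul_assoc, h2, mul_assoc]

theorem ro2 : ro m * ro m * SB m (m + 2) = SB m 1 * (ro m * ro m) := by
  have hS := SB_rel m
  have h1 : (ro m) ^ 2 = QQ (SB m) 2 * (DD (SB m) (m + 2)) ^ 2 := hS.om_eq 2 (by omega)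
  have h2 : SB m 1 * (DD (SB m) (m + 2) * DD (SB m) (m + 2)) = DD (SB m) (m + 2) * DD (SB m) (m + 2) * SB m (m + 2) :=
    hS.D_last (by omega)
  have h3 : Commute (SB m 1) (QQ (SB m) 2) := hS.QQ_comm 0 2 (by omega) (by omega)
  rw [pow_two, pow_two] at h1
  rw [h1, mul_assoc, ← h2, ← mul_assoc, ← h3.eq, mul_assoc]

/-- the images of the generators in the group of type `B` -/
def xa (k : ℕ) : Art (cmBf m) := if k = 0 then ro m * SB m (m + 2) * (ro m)⁻¹ else SB m k

theorem xa_zero : xa m 0 = ro m * SB m (m + 2) * (ro m)⁻¹ := if_pos rfl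

theorem xa_of {k : ℕ} (hk : k ≠ 0) : xa m k = SB m k := if_neg hk

theorem ro_xa (k : ℕ) (hk2 : k + 1 ≤ m + 2) : ro m * xa m k = xa m (k + 1) * ro m := by
  rcases Nat.eq_zero_or_pos k with h1 | h1
  · subst h1
    have e : xa m (0 + 1) = SB m 1 := xa_of m one_ne_zero
    rw [xa_zero, e]
    have h2 := ro2 m
    calc ro m * (ro m * SB m (m + 2) * (ro m)⁻¹) = (ro m * ro m * SB m (m + 2)) * (ro m)⁻¹ := by group
      _ = SB m 1 * ro m := by rw [h2]; group
  · rw [xa_of m (by omega), xa_of m (by omega)]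
    exact ro_SB m k h1 hk2

theorem ro_xa_last : ro m * xa m (m + 2) = xa m 0 * ro m := by
  rw [xa_zero, xa_of m (by omega)]
  group

theorem xa_rel : AtRel (fun k : Fin (m + 3) => xa m k) where
  br k l h := by
    have hS := SB_rel m
    have hl := l.2
    rw [← h]
    rcases Nat.eq_zero_or_pos k.val with h1 | h1
    · rw [h1]
      have h2 : xa m (m + 1) * xa m (m + 2) * xa m (m + 1) = xa m (m + 2) * xa m (m + 1) * xa m (m + 2) := by
        rw [xa_of m (by omega), xa_of m (by omega)]
        exact hS.braid (m + 1) (by omega) (by omega)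
      have h3 := cj3 h2 (ro_xa m (m + 1) (by omega)) (ro_xa_last m)
      exact cj3 h3 (ro_xa_last m) (ro_xa m 0 (by omega))
    · rw [xa_of m (by omega), xa_of m (by omega)]
      exact hS.braid k.val h1 (by omega)
  brc k l hk hl := by
    have hS := SB_rel m
    rw [hk, hl]
    have h2 : xa m (m + 1) * xa m (m + 2) * xa m (m + 1) = xa m (m + 2) * xa m (m + 1) * xa m (m + 2) := by
      rw [xa_of m (by omega), xa_of m (by omega)]
      exact hS.braid (m + 1) (by omega) (by omega)
    exact (cj3 h2 (ro_xa m (m + 1) (by omega)) (ro_xa_last m)).symm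
  co k l h h' := by
    have hS := SB_rel m
    have hl := l.2
    rcases Nat.eq_zero_or_pos k.val with h1 | h1
    · rw [h1]
      obtain ⟨j, hj⟩ : ∃ j, l.val = j + 1 := ⟨l.val - 1, by omega⟩
      rw [hj]
      have h2 : xa m (m + 2) * xa m j = xa m j * xa m (m + 2) := by
        rw [xa_of m (by omega), xa_of m (by omega)]
        exact (hS.comm j (m + 2) (by omega) (by omega)).symm
      exact cj2 h2 (ro_xa_last m) (ro_xa m j (by omega))
    · rw [xa_of m (by omega), xa_of m (by omega)]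
      exact hS.comm k.val l.val h (by omega)

/-- the embedding -/
def Xi : Art (cmAt m) →* Art (cmBf m) := liftAt (xa_rel m)

theorem Xi_gen (k : Fin (m + 3)) : Xi m (gen _ k) = xa m k := liftAt_a _ _

/-- the rotation of the circuit -/
def rf (k : Fin (m + 3)) : Fin (m + 3) := if h : k.val = m + 2 then ⟨0, by omega⟩ else ⟨k.val + 1, by omega⟩

/-- the inverse rotation of the circuit -/
def rf' (k : Fin (m + 3)) : Fin (m + 3) := if k.val = 0 then ⟨m + 2, by omega⟩ else ⟨k.val - 1, by omega⟩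

theorem rf_val (k : Fin (m + 3)) : (rf m k).val = if k.val = m + 2 then 0 else k.val + 1 := by
  rw [rf]
  split_ifs <;> rfl

theorem rf'_val (k : Fin (m + 3)) : (rf' m k).val = if k.val = 0 then m + 2 else k.val - 1 := by
  rw [rf']
  split_ifs <;> rfl

theorem rf_rf' (k : Fin (m + 3)) : rf m (rf' m k) = k := by
  apply Fin.ext
  have hk := k.2
  rw [rf_val, rf'_val]
  by_cases h : k.val = 0
  · rw [if_pos h, if_pos rfl, h]
  · rw [if_neg h, if_neg (by omega)]
    omega

theorem rf'_rf (k : Fin (m + 3)) : rf' m (rf m k) = k := by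
  apply Fin.ext
  have hk := k.2
  rw [rf'_val, rf_val]
  by_cases h : k.val = m + 2
  · rw [if_pos h, if_pos rfl, h]
  · rw [if_neg h, if_neg (by omega)]
    omega

omit m in
theorem lA_rot {m k l : ℕ} (hk : k < m + 2) (hl : l < m + 2) : lA m (k + 1) (l + 1) = lA m k l := by
  unfold lA
  by_cases h1 : k = l
  · rw [if_pos (by omega), if_pos h1]
  · rw [if_neg (by omega), if_neg h1]
    by_cases h2 : k + 1 = l ∨ l + 1 = k
    · rw [if_pos (by omega), if_pos (by omega)]
    · rw [if_neg (by omega), if_neg (by omega)]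

omit m in
theorem lA_rot0 {m l : ℕ} (hl : l < m + 2) : lA m 0 (l + 1) = lA m (m + 2) l := by
  unfold lA
  have e1 : ¬ (0 = l + 1) := by omega
  have e2 : ¬ (m + 2 = l) := by omega
  rw [if_neg e1, if_neg e2]
  by_cases h2 : l = 0 ∨ l = m + 1
  · rw [if_pos (by omega), if_pos (by omega)]
  · rw [if_neg (by omega), if_neg (by omega)]

theorem rf_lab (x y : Fin (m + 3)) : cmAt m (rf m x) (rf m y) = cmAt m x y := by
  have hx := x.2
  have hy := y.2
  rw [cmAt_apply, cmAt_apply, rf_val, rf_val]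
  by_cases h1 : x.val = m + 2
  · by_cases h2 : y.val = m + 2
    · rw [if_pos h1, if_pos h2, h1, h2]
      unfold lA
      rw [if_pos rfl, if_pos rfl]
    · rw [if_pos h1, if_neg h2, h1]
      exact lA_rot0 (by omega)
  · by_cases h2 : y.val = m + 2
    · rw [if_neg h1, if_pos h2, h2, lA_symm, lA_symm m x.val]
      exact lA_rot0 (by omega)
    · rw [if_neg h1, if_neg h2]
      exact lA_rot (by omega) (by omega)

theorem rf'_lab (x y : Fin (m + 3)) : cmAt m (rf' m x) (rf' m y) = cmAt m x y := by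
  rw [← rf_lab, rf_rf', rf_rf']

/-- the automorphism -/
def roE : MulAut (Art (cmAt m)) :=
  MonoidHom.toMulEquiv (relab _ _ (rf m) (rf_lab m)) (relab _ _ (rf' m) (rf'_lab m))
    (art_ext fun i => by rw [MonoidHom.comp_apply, relab_gen, relab_gen, rf'_rf]; rfl)
    (art_ext fun i => by rw [MonoidHom.comp_apply, relab_gen, relab_gen, rf_rf']; rfl)

theorem roE_gen (k : Fin (m + 3)) : roE m (gen _ k) = gen _ (rf m k) :=
  relab_gen (cmAt m) (cmAt m) (rf m) (rf_lab m) k

/-- the extension by the rotation -/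
abbrev G3 : Type := Art (cmAt m) ⋊[zpowersHom _ (roE m)] Multiplicative ℤ

/-- the element `t` -/
def tz : G3 m := SemidirectProduct.inr (Multiplicative.ofAdd 1)

theorem tz_inl (x : Art (cmAt m)) : tz m * SemidirectProduct.inl x = SemidirectProduct.inl (roE m x) * tz m := by
  have h1 := SemidirectProduct.inl_aut (φ := zpowersHom _ (roE m)) (Multiplicative.ofAdd 1) x
  have h2 : zpowersHom _ (roE m) (Multiplicative.ofAdd 1) x = roE m x := by
    rw [zpowersHom_apply, toAdd_ofAdd, zpow_one]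
  rw [h2] at h1
  rw [h1, tz, map_inv]
  group

/-- the generators of the circuit -/
def ag (k : ℕ) : G3 m := if h : k < m + 3 then SemidirectProduct.inl (gen _ ⟨k, h⟩) else 1

theorem ag_lt {k : ℕ} (h : k < m + 3) : ag m k = SemidirectProduct.inl (gen _ ⟨k, h⟩) := dif_pos h

theorem tz_ag (k : ℕ) (hk : k + 1 ≤ m + 2) : tz m * ag m k = ag m (k + 1) * tz m := by
  rw [ag_lt m (by omega : k < m + 3), ag_lt m (by omega : k + 1 < m + 3), tz_inl, roE_gen]
  congr 3
  apply Fin.ext
  rw [rf_val, if_neg]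
  change k ≠ m + 2
  omega

theorem tz_ag_last : tz m * ag m (m + 2) = ag m 0 * tz m := by
  rw [ag_lt m (by omega : m + 2 < m + 3), ag_lt m (by omega : 0 < m + 3), tz_inl, roE_gen]
  congr 3
  apply Fin.ext
  rw [rf_val, if_pos rfl]

/-- the generators with positive index -/
def sp (k : ℕ) : G3 m := if k = 0 then 1 else ag m k

theorem sp_of {k : ℕ} (hk : k ≠ 0) : sp m k = ag m k := if_neg hk

theorem ag_br (k : ℕ) (hk : k + 1 < m + 3) : ag m k * ag m (k + 1) * ag m k = ag m (k + 1) * ag m k * ag m (k + 1) := by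
  rw [ag_lt m (by omega : k < m + 3), ag_lt m hk]
  simp only [← map_mul]
  exact congrArg _ ((atrel_gen m).br ⟨k, by omega⟩ ⟨k + 1, hk⟩ rfl)

theorem ag_co (j k : ℕ) (hj : 1 ≤ j) (hjk : j + 2 ≤ k) (hk : k < m + 3) : ag m j * ag m k = ag m k * ag m j := by
  rw [ag_lt m (by omega : j < m + 3), ag_lt m hk]
  simp only [← map_mul]
  exact congrArg _ ((atrel_gen m).co ⟨j, by omega⟩ ⟨k, hk⟩ hjk (by
    intro h1
    have h2 : j = 0 := h1.1
    omega))

theorem sp_rel : HB (sp m) (m + 3) where
  b0 := by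
    have h1 : sp m 0 = 1 := if_pos rfl
    rw [h1]
    group
  braid k hk hkn := by
    rw [sp_of m (by omega), sp_of m (by omega)]
    exact ag_br m k hkn
  comm j k hjk hk := by
    rcases Nat.eq_zero_or_pos j with h1 | h1
    · subst h1
      have h1 : sp m 0 = 1 := if_pos rfl
      rw [h1, one_mul, mul_one]
    · rw [sp_of m (by omega), sp_of m (by omega)]
      exact ag_co m j k h1 hjk hk

theorem tz_DD (j : ℕ) (hj : j ≤ m + 1) : tz m * DD (sp m) j = EE (sp m) j * tz m := by
  induction j with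
  | zero => simp [DD, EE]
  | succ j ih =>
    have h1 := tz_ag m (j + 1) (by omega)
    rw [DD_succ, EE_succ, ← mul_assoc, ih (by omega), mul_assoc, sp_of m (by omega : j + 1 ≠ 0), h1,
      sp_of m (by omega : j + 2 ≠ 0), mul_assoc]

/-- the images of the generators of type `B` -/
def cb (k : Fin (m + 3)) : G3 m := if k.val = 0 then tz m * (DD (sp m) (m + 2))⁻¹ else ag m k

theorem cb_zero : cb m 0 = tz m * (DD (sp m) (m + 2))⁻¹ := if_pos rfl

theorem cb_of {k : Fin (m + 3)} (hk : k.val ≠ 0) : cb m k = ag m k := if_neg hk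

theorem cb_rel : BfRel (cb m) where
  b4 := by
    have hS := sp_rel m
    rw [cb_zero, cb_of m (by rw [one_val]; decide), one_val, ← sp_of m one_ne_zero]
    have h1 : DD (sp m) (m + 2) = sp m 1 * EE (sp m) (m + 1) := (HT.E_D (m + 1)).symm
    have h2 : DD (sp m) (m + 2) = DD (sp m) (m + 1) * sp m (m + 2) := rfl
    have h3 := tz_DD m (m + 1) le_rfl
    have h4 : tz m * tz m * sp m (m + 2) = sp m 1 * (tz m * tz m) := by
      have e : tz m * ag m 0 = ag m 1 * tz m := tz_ag m 0 (by omega)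
      rw [sp_of m (by omega : m + 2 ≠ 0), sp_of m one_ne_zero, mul_assoc, tz_ag_last, ← mul_assoc, e, mul_assoc]
    have h5 : DD (sp m) (m + 2) * DD (sp m) (m + 1) = EE (sp m) (m + 1) * DD (sp m) (m + 2) :=
      hS.D_E (m + 1) (by omega)
    exact th4 h1 h2 h3 h4 h5
  br k l hk h := by
    rw [cb_of m (by omega), cb_of m (by omega), ← h]
    exact ag_br m k (by omega)
  co k l h := by
    have hl := l.2
    rcases Nat.eq_zero_or_pos k.val with h1 | h1
    · have hk : k = 0 := Fin.ext h1
      obtain ⟨j, hj⟩ : ∃ j, l.val = j + 1 := ⟨l.val - 1, by omega⟩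
      rw [hk, cb_zero, cb_of m (by omega), hj]
      have h2 := (sp_rel m).D_shift j (m + 2) (by omega) (by omega) (by omega)
      rw [sp_of m (by omega), sp_of m (by omega)] at h2
      have h3 := tz_ag m j (by omega)
      generalize DD (sp m) (m + 2) = D at h2 ⊢
      calc tz m * D⁻¹ * ag m (j + 1) = tz m * D⁻¹ * (ag m (j + 1) * D) * D⁻¹ := by group
        _ = (tz m * ag m j) * D⁻¹ := by rw [← h2]; group
        _ = ag m (j + 1) * (tz m * D⁻¹) := by rw [h3]; group
    · rw [cb_of m (by omega), cb_of m (by omega)]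
      exact ag_co m k l h1 h (by omega)

/-- the homomorphism back -/
def Th : Art (cmBf m) →* G3 m := liftBf (cb_rel m)

theorem Th_SB {k : ℕ} (hk : k ≠ 0) (hk2 : k < m + 3) : Th m (SB m k) = ag m k := by
  rw [SB_lt m hk2, Th, liftBf_b, cb_of m (by change k ≠ 0; exact hk)]

theorem Th_ro : Th m (ro m) = tz m := by
  have h1 : Th m (SB m 0) = tz m * (DD (sp m) (m + 2))⁻¹ := by
    rw [SB_lt m (by omega : 0 < m + 3), Th, liftBf_b]
    exact cb_zero m
  have h2 : Th m (DD (SB m) (m + 2)) = DD (sp m) (m + 2) := by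
    rw [map_DD]
    exact DD_congr _ fun k hk1 hk2 => by rw [Th_SB m (by omega) (by omega), sp_of m (by omega)]
  rw [ro, map_mul, h1, h2]
  group

theorem Th_Xi (x : Art (cmAt m)) : Th m (Xi m x) = SemidirectProduct.inl x := by
  suffices h : (Th m).comp (Xi m) = SemidirectProduct.inl from DFunLike.congr_fun h x
  apply art_ext
  intro k
  rw [MonoidHom.comp_apply, Xi_gen]
  rcases Nat.eq_zero_or_pos k.val with h1 | h1
  · rw [h1, xa_zero, map_mul, map_mul, map_inv, Th_ro, Th_SB m (by omega) (by omega), tz_ag_last,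
      mul_inv_cancel_right, ag_lt m (by omega : 0 < m + 3)]
    congr 2
    exact Fin.ext h1.symm
  · rw [xa_of m (by omega), Th_SB m (by omega) k.2, ag_lt m k.2]

theorem Xi_inj : Function.Injective (Xi m) := by
  intro x y h
  have := congrArg (Th m) h
  rw [Th_Xi, Th_Xi] at this
  exact SemidirectProduct.inl_injective this

end Emb

/-- the Artin group of affine type `A` is in the class -/
theorem art_cmAt_mem {C : (G : Type) → [Group G] → Prop} (hC : Inherits C) (m : ℕ)
    (hB : C (Art (cmBf m))) : C (Art (cmAt m)) :=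
  hC.of_injective (Xi m) (Xi_inj m) hB

end Pool.Agent.H10.CA
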