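import Pool.Agent.H10.BT.Ax

/-!
# The action of the braid groups on the free group

`sg k` maps `z k` to `z k z (k + 1) (z k)⁻¹` and `z (k + 1)` to `z k`.
-/

set_option autoImplicit false

namespace Pool.Agent.H10.CA

open Pool.Agent.H52.PAG Pool.Agent.H10.BT

/-- the generators -/
def zz (l : ℕ) : FreeGroup ℕ := FreeGroup.of l

theorem fr_ext {H : Type*} [Group H] {f g : FreeGroup ℕ →* H} (h : ∀ l, f (zz l) = g (zz l)) : f = g :=
  FreeGroup.ext_hom _ _ h

theorem liftz {H : Type*} [Group H] (f : ℕ → H) (l : ℕ) : FreeGroup.lift f (zz l) = f l := FreeGroup.lift_apply_of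

/-- the automorphism -/
def sg (k : ℕ) : FreeGroup ℕ →* FreeGroup ℕ :=
  FreeGroup.lift fun l => if l = k then zz k * zz (k + 1) * (zz k)⁻¹ else if l = k + 1 then zz k else zz l

theorem sg_self (k : ℕ) : sg k (zz k) = zz k * zz (k + 1) * (zz k)⁻¹ := by
  rw [sg, liftz, if_pos rfl]

theorem sg_succ (k : ℕ) : sg k (zz (k + 1)) = zz k := by
  rw [sg, liftz, if_neg (by omega), if_pos rfl]

theorem sg_of {k l : ℕ} (h1 : l ≠ k) (h2 : l ≠ k + 1) : sg k (zz l) = zz l := by
  rw [sg, liftz, if_neg h1, if_neg h2]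

/-- the inverse automorphism -/
def sg' (k : ℕ) : FreeGroup ℕ →* FreeGroup ℕ :=
  FreeGroup.lift fun l => if l = k then zz (k + 1) else if l = k + 1 then (zz (k + 1))⁻¹ * zz k * zz (k + 1) else zz l

theorem sg'_self (k : ℕ) : sg' k (zz k) = zz (k + 1) := by
  rw [sg', liftz, if_pos rfl]

theorem sg'_succ (k : ℕ) : sg' k (zz (k + 1)) = (zz (k + 1))⁻¹ * zz k * zz (k + 1) := by
  rw [sg', liftz, if_neg (by omega), if_pos rfl]

theorem sg'_of {k l : ℕ} (h1 : l ≠ k) (h2 : l ≠ k + 1) : sg' k (zz l) = zz l := by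
  rw [sg', liftz, if_neg h1, if_neg h2]

theorem sg_sg' (k : ℕ) : (sg k).comp (sg' k) = MonoidHom.id _ := by
  refine fr_ext fun l => ?_
  rw [MonoidHom.comp_apply, MonoidHom.id_apply]
  by_cases h1 : l = k
  · subst h1
    rw [sg'_self, sg_succ]
  · by_cases h2 : l = k + 1
    · subst h2
      rw [sg'_succ, map_mul, map_mul, map_inv, sg_succ, sg_self]
      group
    · rw [sg'_of h1 h2, sg_of h1 h2]

theorem sg'_sg (k : ℕ) : (sg' k).comp (sg k) = MonoidHom.id _ := by
  refine fr_ext fun l => ?_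
  rw [MonoidHom.comp_apply, MonoidHom.id_apply]
  by_cases h1 : l = k
  · subst h1
    rw [sg_self, map_mul, map_mul, map_inv, sg'_succ, sg'_self]
    group
  · by_cases h2 : l = k + 1
    · subst h2
      rw [sg_succ, sg'_self]
    · rw [sg_of h1 h2, sg'_of h1 h2]

/-- as an element of the automorphism group -/
def sgE (k : ℕ) : MulAut (FreeGroup ℕ) := MonoidHom.toMulEquiv (sg k) (sg' k) (sg'_sg k) (sg_sg' k)

theorem sgE_apply (k : ℕ) (x : FreeGroup ℕ) : sgE k x = sg k x := rfl

theorem frE_ext {f g : MulAut (FreeGroup ℕ)} (h : ∀ l, f (zz l) = g (zz l)) : f = g := by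
  have h3 : f.toMonoidHom = g.toMonoidHom := fr_ext h
  ext x : 1
  exact DFunLike.congr_fun h3 x

theorem ap3 (f g h : MulAut (FreeGroup ℕ)) (x : FreeGroup ℕ) : (f * g * h) x = f (g (h x)) := rfl

theorem sgE_braid (k : ℕ) : sgE k * sgE (k + 1) * sgE k = sgE (k + 1) * sgE k * sgE (k + 1) := by
  refine frE_ext fun l => ?_
  rw [ap3, ap3]
  simp only [sgE_apply]
  have e0 : sg (k + 1) (zz k) = zz k := sg_of (by omega) (by omega)
  have e1 : sg k (zz (k + 1 + 1)) = zz (k + 1 + 1) := sg_of (by omega) (by omega)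
  have e2 : sg (k + 1) (zz (k + 1)) = zz (k + 1) * zz (k + 1 + 1) * (zz (k + 1))⁻¹ := sg_self _
  have e3 : sg (k + 1) (zz (k + 1 + 1)) = zz (k + 1) := sg_succ _
  by_cases h1 : l = k
  · subst h1
    simp only [sg_self l, sg_succ l, e0, e1, e2, e3, map_mul, map_inv]
    group
  · by_cases h2 : l = k + 1
    · subst h2
      simp only [sg_self k, sg_succ k, e0, e1, e2, e3, map_mul, map_inv]
    · by_cases h3 : l = k + 1 + 1
      · subst h3
        simp only [sg_self k, sg_succ k, e0, e1, e2, e3, map_mul, map_inv]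
      · rw [sg_of h1 h2, sg_of h2 h3, sg_of h1 h2, sg_of h2 h3]

theorem sgE_comm {j k : ℕ} (h : j + 2 ≤ k) : sgE j * sgE k = sgE k * sgE j := by
  refine frE_ext fun l => ?_
  rw [MulAut.mul_apply, MulAut.mul_apply]
  simp only [sgE_apply]
  have a1 : sg j (zz k) = zz k := sg_of (by omega) (by omega)
  have a2 : sg j (zz (k + 1)) = zz (k + 1) := sg_of (by omega) (by omega)
  have a3 : sg k (zz j) = zz j := sg_of (by omega) (by omega)
  have a4 : sg k (zz (j + 1)) = zz (j + 1) := sg_of (by omega) (by omega)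
  by_cases h1 : l = j
  · subst h1
    rw [a3, sg_self, map_mul, map_mul, map_inv, a3, a4]
  · by_cases h2 : l = j + 1
    · subst h2
      rw [a4, sg_succ, a3]
    · by_cases h3 : l = k
      · subst h3
        rw [a1, sg_self, map_mul, map_mul, map_inv, a1, a2]
      · by_cases h4 : l = k + 1
        · subst h4
          rw [a2, sg_succ, a1]
        · rw [sg_of h1 h2, sg_of h3 h4, sg_of h1 h2]

/-- the square of a half twist satisfies the relation with label four -/
theorem sq_four {H : Type*} [Group H] {a b : H} (h : a * b * a = b * a * b) :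
    (a * a) * b * (a * a) * b = b * (a * a) * b * (a * a) := by
  calc (a * a) * b * (a * a) * b = a * (a * b * a) * (a * b) := by group
    _ = a * (b * a * b) * (a * b) := by rw [h]
    _ = (a * b * a) * (b * a * b) := by group
    _ = (b * a * b) * (a * b * a) := by rw [h]
    _ = b * a * (b * a * b) * a := by group
    _ = b * a * (a * b * a) * a := by rw [← h]
    _ = _ := by group

variable (m : ℕ)

/-- the automorphisms of the generators -/
def ac (k : Fin (m + 3)) : MulAut (FreeGroup ℕ) := if k.val = 0 then sgE 0 * sgE 0 else sgE k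

theorem ac_zero : ac m 0 = sgE 0 * sgE 0 := if_pos rfl

theorem ac_of {k : Fin (m + 3)} (h : k.val ≠ 0) : ac m k = sgE k := if_neg h

theorem ac_rel : BfRel (ac m) where
  b4 := by
    have h1 : ((1 : Fin (m + 3)) : ℕ) ≠ 0 := by rw [one_val]; decide
    rw [ac_zero, ac_of m h1, one_val]
    exact sq_four (sgE_braid 0)
  br k l hk h := by
    rw [ac_of m (by omega : k.val ≠ 0), ac_of m (by omega : l.val ≠ 0), ← h]
    exact sgE_braid k
  co k l h := by
    have hl0 : l.val ≠ 0 := by omega
    have h2 : ∀ j : ℕ, j + 2 ≤ l.val → Commute (sgE j) (sgE l) := fun j hj => sgE_comm hj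
    rw [ac_of m hl0]
    by_cases hk0 : k.val = 0
    · have hk : k = 0 := Fin.ext hk0
      rw [hk, ac_zero]
      exact ((h2 0 (by omega)).mul_left (h2 0 (by omega))).eq
    · rw [ac_of m hk0]
      exact h2 k h

/-- the action -/
def rhoC : Art (cmBf m) →* MulAut (FreeGroup ℕ) := liftBf (ac_rel m)

theorem rhoC_gen (k : Fin (m + 3)) : rhoC m (gen _ k) = ac m k := liftBf_b _ _

end Pool.Agent.H10.CA
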