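import Pool.Agent.H10.CA.Idn
import Pool.Agent.H10.CA.Fre
import Pool.Agent.H10.BT.Emb
import Pool.Agent.H10.DT.Fk

/-!
# The Artin group of affine type `C` is in the class

`cmCt m` is the path `0, …, m + 2, none` with label `4` at the two ends. The homomorphism to `Art (cmBf m)` which kills `none` has
free kernel.
-/

set_option autoImplicit false

namespace Pool.Agent.H10.CA

open Pool.Agent.H52.PAG Pool.Agent.H98.DT Pool.Agent.H10.DT Pool.Agent.H10.BT Pool.Agent.H98.FJ

/-- the labels of the diagram of affine type `C` -/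
def lCt (m : ℕ) : Option (Fin (m + 3)) → Option (Fin (m + 3)) → ℕ
  | some k, some l => lB k l
  | some k, none => if k.val = m + 2 then 4 else 2
  | none, some k => if k.val = m + 2 then 4 else 2
  | none, none => 1

/-- the diagram of affine type `C` -/
def cmCt (m : ℕ) : CoxeterMatrix (Option (Fin (m + 3))) where
  M := Matrix.of (lCt m)
  isSymm := by
    ext x y
    rcases x with _ | k <;> rcases y with _ | l
    · rfl
    · rfl
    · rfl
    · exact lB_symm _ _
  diagonal x := by
    rcases x with _ | k
    · rfl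
    · simp [lCt, lB]
  off_diagonal x y h := by
    rcases x with _ | k <;> rcases y with _ | l
    · exact (h rfl).elim
    · simp only [Matrix.of_apply, lCt]
      split_ifs <;> omega
    · simp only [Matrix.of_apply, lCt]
      split_ifs <;> omega
    · have h1 : k.val ≠ l.val := fun h1 => h (congrArg some (Fin.ext h1))
      simp only [Matrix.of_apply, lCt, lB, if_neg h1]
      split_ifs <;> omega

theorem cmCt_apply (m : ℕ) (x y : Option (Fin (m + 3))) : cmCt m x y = lCt m x y := rfl

section Rel

variable {m : ℕ} {G : Type*} [Group G]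

/-- the relations of affine type `C` -/
structure CtRel (b : Fin (m + 3) → G) (q : G) : Prop extends BfRel b where
  q4 : ∀ k : Fin (m + 3), k.val = m + 2 → q * b k * q * b k = b k * q * b k * q
  qco : ∀ k : Fin (m + 3), k.val ≠ m + 2 → q * b k = b k * q

/-- homomorphisms from the Artin group of affine type `C` -/
def liftCt {b : Fin (m + 3) → G} {q : G} (h : CtRel b q) : Art (cmCt m) →* G :=
  lift (oG b q) fun x y _ => by
    rw [cmCt_apply]
    rcases x with _ | k <;> rcases y with _ | l
    · rfl
    · simp only [lCt, oG]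
      split_ifs with h1
      · rw [alt_four, alt_four]
        exact h.q4 l h1
      · rw [alt_two, alt_two]
        exact h.qco l h1
    · simp only [lCt, oG]
      split_ifs with h1
      · rw [alt_four, alt_four]
        exact (h.q4 k h1).symm
      · rw [alt_two, alt_two]
        exact (h.qco k h1).symm
    · exact h.toBfRel.alt k l

@[simp]
theorem liftCt_b {b : Fin (m + 3) → G} {q : G} (h : CtRel b q) (k : Fin (m + 3)) :
    liftCt h (gen _ (some k)) = b k := lift_gen _ _ _

@[simp]
theorem liftCt_q {b : Fin (m + 3) → G} {q : G} (h : CtRel b q) : liftCt h (gen _ none) = q := lift_gen _ _ _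

theorem ct_ext {f g : Art (cmCt m) →* G} (h1 : ∀ k, f (gen _ (some k)) = g (gen _ (some k)))
    (h2 : f (gen _ none) = g (gen _ none)) : f = g :=
  art_ext fun x => by
    rcases x with _ | k
    · exact h2
    · exact h1 k

end Rel

section Gen

variable (m : ℕ)

theorem ctrel_gen : CtRel (fun k : Fin (m + 3) => gen (cmCt m) (some k)) (gen (cmCt m) none) where
  b4 := by
    have h1 := gen_rel (M := cmCt m) (i := some 0) (j := some 1)
    have h2 : cmCt m (some 0) (some 1) = 4 := by
      change lB ((0 : Fin (m + 3)) : ℕ) ((1 : Fin (m + 3)) : ℕ) = 4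
      rw [one_val]
      rfl
    rw [h2, alt_four, alt_four] at h1
    exact h1 (by decide)
  br k l hk h := by
    have h1 := gen_rel (M := cmCt m) (i := some k) (j := some l)
    have h2 : cmCt m (some k) (some l) = 3 := by
      change lB k l = 3
      simp only [lB]
      rw [if_neg (by omega), if_neg (by omega), if_pos (Or.inl h)]
    rw [h2, alt_three, alt_three] at h1
    exact h1 (by decide)
  co k l h := by
    have h1 := gen_rel (M := cmCt m) (i := some k) (j := some l)
    have h2 : cmCt m (some k) (some l) = 2 := by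
      change lB k l = 2
      simp only [lB]
      rw [if_neg (by omega), if_neg (by omega), if_neg (by omega)]
    rw [h2, alt_two, alt_two] at h1
    exact h1 (by decide)
  q4 k h := by
    have h1 := gen_rel (M := cmCt m) (i := none) (j := some k)
    have h2 : cmCt m none (some k) = 4 := if_pos h
    rw [h2, alt_four, alt_four] at h1
    exact h1 (by decide)
  qco k h := by
    have h1 := gen_rel (M := cmCt m) (i := none) (j := some k)
    have h2 : cmCt m none (some k) = 2 := if_neg h
    rw [h2, alt_two, alt_two] at h1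
    exact h1 (by decide)

/-- the generators -/
def SC (k : ℕ) : Art (cmCt m) := if h : k < m + 3 then gen _ (some ⟨k, h⟩) else gen _ none

theorem SC_lt {k : ℕ} (h : k < m + 3) : SC m k = gen _ (some ⟨k, h⟩) := dif_pos h

theorem SC_last : SC m (m + 3) = gen _ none := dif_neg (lt_irrefl _)

theorem SC_rel : CC (SC m) (m + 3) where
  two := by omega
  b0 := by
    rw [SC_lt m (by omega : 0 < m + 3), SC_lt m (by omega : 1 < m + 3)]
    have h1 := (ctrel_gen m).b4
    have e1 : (⟨1, by omega⟩ : Fin (m + 3)) = 1 := Fin.ext (one_val m).symm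
    rw [e1]
    exact h1
  bn := by
    have e1 : m + 3 - 1 = m + 2 := rfl
    rw [e1, SC_last, SC_lt m (by omega : m + 2 < m + 3)]
    exact (ctrel_gen m).q4 ⟨m + 2, by omega⟩ rfl
  braid k hk hkn := by
    rw [SC_lt m (by omega : k < m + 3), SC_lt m hkn]
    exact (ctrel_gen m).br ⟨k, by omega⟩ ⟨k + 1, hkn⟩ hk rfl
  comm j k hjk hk := by
    rcases Nat.lt_or_ge k (m + 3) with h1 | h1
    · rw [SC_lt m (by omega : j < m + 3), SC_lt m h1]
      exact (ctrel_gen m).co ⟨j, by omega⟩ ⟨k, h1⟩ hjk
    · have hk' : k = m + 3 := by omega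
      subst hk'
      rw [SC_lt m (by omega : j < m + 3), SC_last]
      exact ((ctrel_gen m).qco ⟨j, by omega⟩ (by
        change j ≠ m + 2
        omega)).symm

end Gen

section Emb

variable (m : ℕ)

/-- the homomorphism on the factor `Art (cmBf m)` -/
def psA : Art (cmBf m) →* Art (cmCt m) := liftBf (ctrel_gen m).toBfRel

theorem psA_gen (k : Fin (m + 3)) : psA m (gen _ k) = SC m k := by
  rw [psA, liftBf_b, SC_lt m k.2]

/-- the images of the free generators -/
def psz (l : ℕ) : Art (cmCt m) := if l = 0 then ael (SC m) (m + 3) else if l ≤ m + 3 then UU (SC m) (m + 3) l else 1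

/-- the homomorphism on the free group -/
def psF : FreeGroup ℕ →* Art (cmCt m) := FreeGroup.lift (psz m)

theorem psF_zero : psF m (zz 0) = ael (SC m) (m + 3) := by
  rw [psF, liftz, psz, if_pos rfl]

theorem psF_of {l : ℕ} (h1 : l ≠ 0) (h2 : l ≤ m + 3) : psF m (zz l) = UU (SC m) (m + 3) l := by
  rw [psF, liftz, psz, if_neg h1, if_pos h2]

theorem psF_gt {l : ℕ} (h1 : l ≠ 0) (h2 : ¬ l ≤ m + 3) : psF m (zz l) = 1 := by
  rw [psF, liftz, psz, if_neg h1, if_neg h2]

theorem ps_gen (i : Fin (m + 3)) (x : FreeGroup ℕ) :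
    psF m (rhoC m (gen _ i) x) = psA m (gen _ i) * psF m x * (psA m (gen _ i))⁻¹ := by
  rw [rhoC_gen, psA_gen]
  suffices h : (psF m).comp (ac m i).toMonoidHom = (MulAut.conj (SC m i)).toMonoidHom.comp (psF m) from
    DFunLike.congr_fun h x
  have hR := SC_rel m
  by_cases hi : i.val = 0
  · have h1 : ∀ y, (ac m i) y = sg 0 (sg 0 y) := fun y => by rw [ac, if_pos hi]; rfl
    refine fr_ext fun l => ?_
    simp only [MonoidHom.comp_apply, MulEquiv.coe_toMonoidHom, h1, MulAut.conj_apply]
    rw [hi]
    by_cases h2 : l = 0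
    · subst h2
      have e : sg 0 (sg 0 (zz 0)) = zz 0 * zz 1 * zz 0 * (zz 0 * zz 1)⁻¹ := by
        rw [sg_self 0, map_mul, map_mul, map_inv, sg_self 0, sg_succ 0]
        group
      rw [e, map_mul, map_mul, map_mul, map_inv, map_mul, psF_zero, psF_of m one_ne_zero (by omega), hR.S0_ael]
    · by_cases h3 : l = 0 + 1
      · subst h3
        rw [sg_succ 0, sg_self 0, map_mul, map_mul, map_inv, psF_zero, psF_of m (by omega) (by omega)]
        exact hR.S0_U1.symm
      · rw [sg_of h2 h3, sg_of h2 h3]
        by_cases h4 : l ≤ m + 3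
        · rw [psF_of m h2 h4, (hR.U0_comm l (by omega) h4).eq, mul_inv_cancel_right]
        · rw [psF_gt m h2 h4]
          group
  · have h1 : ∀ y, (ac m i) y = sg i y := fun y => by rw [ac, if_neg hi]; rfl
    have hi2 := i.2
    refine fr_ext fun l => ?_
    simp only [MonoidHom.comp_apply, MulEquiv.coe_toMonoidHom, h1, MulAut.conj_apply]
    by_cases h2 : l = i
    · subst h2
      rw [sg_self, map_mul, map_mul, map_inv, psF_of m hi (by omega), psF_of m (by omega) (by omega)]
      exact (hR.U_self i.val (by omega) (by omega)).symm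
    · by_cases h3 : l = i + 1
      · subst h3
        rw [sg_succ, psF_of m hi (by omega), psF_of m (by omega) (by omega)]
        exact (CC.U_succ i.val (by omega)).symm
      · rw [sg_of h2 h3]
        by_cases h0 : l = 0
        · subst h0
          rw [psF_zero, (hR.ael_comm i.val (by omega) (by omega)).eq, mul_inv_cancel_right]
        · by_cases h4 : l ≤ m + 3
          · rw [psF_of m h0 h4, (hR.U_comm i.val l (by omega) (by omega) (by omega) h4 h2 h3).eq, mul_inv_cancel_right]
          · rw [psF_gt m h0 h4]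
            group

/-- the semidirect product -/
abbrev EC : Type := FreeGroup ℕ ⋊[rhoC m] Art (cmBf m)

/-- the retraction -/
def psi : EC m →* Art (cmCt m) :=
  SemidirectProduct.lift (psF m) (psA m) (fun g => MonoidHom.ext fun x =>
    compat_art (cmBf m) (rhoC m) (psA m) (psF m) (ps_gen m) g x)

theorem inr_conj (g : Art (cmBf m)) (x : FreeGroup ℕ) :
    (SemidirectProduct.inr g : EC m) * SemidirectProduct.inl x =
      SemidirectProduct.inl (rhoC m g x) * SemidirectProduct.inr g := by
  rw [SemidirectProduct.inl_aut, map_inv]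
  group

theorem rho_last {k : Fin (m + 3)} (hk : k.val = m + 2) : rhoC m (gen _ k) (zz (m + 3)) = zz (m + 2) := by
  rw [rhoC_gen, ac_of m (by omega), hk, sgE_apply]
  exact sg_succ (m + 2)

theorem rho_last' {k : Fin (m + 3)} (hk : k.val = m + 2) :
    rhoC m (gen _ k) (zz (m + 2)) = zz (m + 2) * zz (m + 3) * (zz (m + 2))⁻¹ := by
  rw [rhoC_gen, ac_of m (by omega), hk, sgE_apply]
  exact sg_self (m + 2)

theorem rho_other {k : Fin (m + 3)} (hk : k.val ≠ m + 2) : rhoC m (gen _ k) (zz (m + 3)) = zz (m + 3) := by
  have hk2 := k.2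
  rw [rhoC_gen, ac]
  split_ifs with h1
  · rw [MulAut.mul_apply, sgE_apply, sgE_apply, sg_of (by omega) (by omega), sg_of (by omega) (by omega)]
  · rw [sgE_apply, sg_of (by omega) (by omega)]

/-- the relations in the semidirect product -/
theorem iot_rel : CtRel (fun k : Fin (m + 3) => (SemidirectProduct.inr (gen (cmBf m) k) : EC m))
    (SemidirectProduct.inl (zz (m + 3)))⁻¹ where
  b4 := by
    simp only [← map_mul]
    exact congrArg _ (bfrel_gen m).b4
  br k l hk h := by
    simp only [← map_mul]
    exact congrArg _ ((bfrel_gen m).br k l hk h)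
  co k l h := by
    simp only [← map_mul]
    exact congrArg _ ((bfrel_gen m).co k l h)
  q4 k hk := by
    have h1 := inr_conj m (gen _ k) (zz (m + 3))
    have h2 := inr_conj m (gen _ k) (zz (m + 2))
    rw [rho_last m hk] at h1
    rw [rho_last' m hk, map_mul, map_mul, map_inv] at h2
    generalize (SemidirectProduct.inr (gen (cmBf m) k) : EC m) = b at h1 h2 ⊢
    generalize (SemidirectProduct.inl (zz (m + 3)) : EC m) = z at h1 h2 ⊢
    generalize (SemidirectProduct.inl (zz (m + 2)) : EC m) = s at h1 h2 ⊢
    have h3 : b * z⁻¹ = s⁻¹ * b := by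
      calc b * z⁻¹ = s⁻¹ * (s * b) * z⁻¹ := by group
        _ = s⁻¹ * b := by rw [← h1]; group
    have h4 : b * s⁻¹ = s * z⁻¹ * s⁻¹ * b := by
      calc b * s⁻¹ = s * z⁻¹ * s⁻¹ * (s * z * s⁻¹ * b) * s⁻¹ := by group
        _ = s * z⁻¹ * s⁻¹ * b := by rw [← h2]; group
    calc z⁻¹ * b * z⁻¹ * b = z⁻¹ * (b * z⁻¹) * b := by group
      _ = s⁻¹ * (s * z⁻¹ * s⁻¹ * b) * b := by rw [h3]; group
      _ = s⁻¹ * (b * s⁻¹) * b := by rw [h4]
      _ = s⁻¹ * b * (s⁻¹ * b) := by group
      _ = b * z⁻¹ * (b * z⁻¹) := by rw [h3]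
      _ = _ := by group
  qco k hk := by
    have h1 := inr_conj m (gen _ k) (zz (m + 3))
    rw [rho_other m hk] at h1
    have h2 : Commute (SemidirectProduct.inr (gen (cmBf m) k) : EC m) (SemidirectProduct.inl (zz (m + 3))) := h1
    exact h2.symm.inv_left

/-- the embedding -/
def iot : Art (cmCt m) →* EC m := liftCt (iot_rel m)

theorem psi_iot (x : Art (cmCt m)) : psi m (iot m x) = x := by
  suffices h : (psi m).comp (iot m) = MonoidHom.id _ from DFunLike.congr_fun h x
  apply ct_ext
  · intro k
    rw [MonoidHom.comp_apply, iot, liftCt_b, psi, SemidirectProduct.lift_inr, psA_gen, SC_lt m k.2]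
    rfl
  · rw [MonoidHom.comp_apply, iot, liftCt_q, map_inv, psi, SemidirectProduct.lift_inl, psF_of m (by omega) le_rfl,
      CC.U_last, inv_inv, SC_last]
    rfl

theorem iot_inj : Function.Injective (iot m) := by
  intro x y h
  have := congrArg (psi m) h
  rwa [psi_iot, psi_iot] at this

/-- the projection -/
def p1 : Art (cmCt m) →* Art (cmBf m) := SemidirectProduct.rightHom.comp (iot m)

theorem ker_free : IsFreeGroup (p1 m).ker := by
  have h1 : IsFreeGroup (SemidirectProduct.inl : FreeGroup ℕ →* EC m).range :=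
    IsFreeGroup.ofMulEquiv (MonoidHom.ofInjective SemidirectProduct.inl_injective)
  let f : (p1 m).ker →* (SemidirectProduct.inl : FreeGroup ℕ →* EC m).range :=
    ((iot m).comp (p1 m).ker.subtype).codRestrict _ (fun x => by
      have h2 : (iot m (x : Art (cmCt m))).right = 1 := x.2
      exact ⟨(iot m (x : Art (cmCt m))).left, SemidirectProduct.ext rfl h2.symm⟩)
  refine free_of_injective f ?_ h1
  intro x y h
  have h3 : iot m x = iot m y := congrArg Subtype.val h
  exact Subtype.ext (iot_inj m h3)

end Emb

/-- the Artin group of affine type `C` is in the class -/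
theorem art_cmCt_mem {C : (G : Type) → [Group G] → Prop} (hC : Inherits C) (hE : Extension C) (hF : FreeByZ C) (m : ℕ)
    (hB : C (Art (cmBf m))) : C (Art (cmCt m)) :=
  fk hC hE hF (Art (cmCt m)) (Art (cmBf m)) (p1 m) hB (ker_free m)

end Pool.Agent.H10.CA
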