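import Pool.Agent.H10.BT.Idn
import Pool.Agent.H10.DT.Alp

/-!
# Identities for the affine diagram `C~_n`

`S 0, …, S n` satisfy the Artin relations of type `C~_n`, `UU n = (S n)⁻¹`, `UU k = S k UU (k + 1) (S k)⁻¹`.
-/

set_option autoImplicit false

namespace Pool.Agent.H10.CA

open Pool.Agent.H10.DT Pool.Agent.H10.BT

variable {G : Type*} [Group G]

/-- the relations of type `C~_n` -/
structure CC (S : ℕ → G) (n : ℕ) : Prop where
  two : 2 ≤ n
  b0 : S 0 * S 1 * S 0 * S 1 = S 1 * S 0 * S 1 * S 0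
  bn : S n * S (n - 1) * S n * S (n - 1) = S (n - 1) * S n * S (n - 1) * S n
  braid : ∀ k, 1 ≤ k → k + 1 < n → S k * S (k + 1) * S k = S (k + 1) * S k * S (k + 1)
  comm : ∀ j k, j + 2 ≤ k → k ≤ n → S j * S k = S k * S j

/-- the element `α` -/
def ael (S : ℕ → G) (n : ℕ) : G := (S 0 * DD S (n - 1)) ^ n * (QQ (mir S n) n)⁻¹

namespace CC

variable {S : ℕ → G} {n : ℕ} (h : CC S n)
include h

theorem left : HB S n where
  b0 := h.b0
  braid := h.braid
  comm j k hjk hk := h.comm j k hjk (by omega)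

theorem right : HB (mir S n) n where
  b0 := by
    change (S n)⁻¹ * (S (n - 1))⁻¹ * (S n)⁻¹ * (S (n - 1))⁻¹ = (S (n - 1))⁻¹ * (S n)⁻¹ * (S (n - 1))⁻¹ * (S n)⁻¹
    have h1 : (S n * S (n - 1) * S n * S (n - 1))⁻¹ = (S (n - 1) * S n * S (n - 1) * S n)⁻¹ := by rw [h.bn]
    calc (S n)⁻¹ * (S (n - 1))⁻¹ * (S n)⁻¹ * (S (n - 1))⁻¹ = (S (n - 1) * S n * S (n - 1) * S n)⁻¹ := by group
      _ = (S n * S (n - 1) * S n * S (n - 1))⁻¹ := h1.symm
      _ = _ := by group
  braid k hk hkn := by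
    have h1 := h.braid (n - (k + 1)) (by omega) (by omega)
    have e1 : n - (k + 1) + 1 = n - k := by omega
    rw [e1] at h1
    change (S (n - k))⁻¹ * (S (n - (k + 1)))⁻¹ * (S (n - k))⁻¹ =
      (S (n - (k + 1)))⁻¹ * (S (n - k))⁻¹ * (S (n - (k + 1)))⁻¹
    have h2 : (S (n - (k + 1)) * S (n - k) * S (n - (k + 1)))⁻¹ = (S (n - k) * S (n - (k + 1)) * S (n - k))⁻¹ := by
      rw [h1]
    calc (S (n - k))⁻¹ * (S (n - (k + 1)))⁻¹ * (S (n - k))⁻¹ = (S (n - k) * S (n - (k + 1)) * S (n - k))⁻¹ := by group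
      _ = (S (n - (k + 1)) * S (n - k) * S (n - (k + 1)))⁻¹ := h2.symm
      _ = _ := by group
  comm j k hjk hk := by
    have h1 := h.comm (n - k) (n - j) (by omega) (by omega)
    have h2 := congrArg (fun x => x⁻¹) h1
    simp only [mul_inv_rev] at h2
    exact h2

omit h in
theorem U_last : UU S n n = (S n)⁻¹ := by
  rw [UU, Nat.sub_self]
  rfl

omit h in
/-- `S k UU (k + 1) (S k)⁻¹ = UU k` -/
theorem U_succ (k : ℕ) (hk : k < n) : S k * UU S n (k + 1) * (S k)⁻¹ = UU S n k := by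
  have e1 : n - k = n - (k + 1) + 1 := by omega
  have e2 : n - (n - (k + 1) + 1) = k := by omega
  rw [UU, UU, e1, TT_succ, mir, e2]
  group

/-- `S k UU k (S k)⁻¹ = UU k UU (k + 1) (UU k)⁻¹` -/
theorem U_self (k : ℕ) (hk : 1 ≤ k) (hkn : k < n) :
    S k * UU S n k * (S k)⁻¹ = UU S n k * UU S n (k + 1) * (UU S n k)⁻¹ := by
  have h1 := h.right.s_t (n - (k + 1)) (by omega)
  have e1 : n - (k + 1) + 1 = n - k := by omega
  have e2 : n - (n - k) = k := by omega
  rw [e1, mir, e2, inv_inv] at h1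
  change (S k)⁻¹ * UU S n (k + 1) * S k = (UU S n (k + 1))⁻¹ * UU S n k * UU S n (k + 1) at h1
  have h2 := U_succ (S := S) k hkn
  generalize UU S n k = u at h1 h2 ⊢
  generalize UU S n (k + 1) = v at h1 h2 ⊢
  have h5 : v = (S k * v * (S k)⁻¹)⁻¹ * (S k * u * (S k)⁻¹) * (S k * v * (S k)⁻¹) := by
    calc v = S k * ((S k)⁻¹ * v * S k) * (S k)⁻¹ := by group
      _ = _ := by rw [h1]; group
  rw [h2] at h5
  rw [h5]
  group

/-- `S k` commutes with the other `UU j` -/
theorem U_comm (k j : ℕ) (hk : 1 ≤ k) (hkn : k < n) (hj : 1 ≤ j) (hjn : j ≤ n) (h1 : j ≠ k) (h2 : j ≠ k + 1) :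
    Commute (S k) (UU S n j) := by
  have key : Commute (mir S n (n - k)) (TT (mir S n) (n - j)) := by
    rcases Nat.lt_or_ge k j with h3 | h3
    · exact h.right.t1 (n - j) (n - k) (by omega) (by omega)
    · exact h.right.t2 (n - j) (n - k) (by omega) (by omega) (by omega)
  have e1 : mir S n (n - k) = (S k)⁻¹ := by
    rw [mir, show n - (n - k) = k by omega]
  rw [e1] at key
  have := key.inv_left
  rwa [inv_inv] at this

/-- `S 0` commutes with `UU j`, `2 ≤ j` -/
theorem U0_comm (j : ℕ) (hj : 2 ≤ j) (hjn : j ≤ n) : Commute (S 0) (UU S n j) := by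
  have key : ∀ m, m + 2 ≤ n → Commute (S 0) (TT (mir S n) m) := by
    intro m
    induction m with
    | zero =>
      intro hm
      have h1 : Commute (S 0) (S n) := h.comm 0 n hm le_rfl
      exact h1.inv_right
    | succ m ih =>
      intro hm
      have h1 : Commute (S 0) (mir S n (m + 1)) :=
        (show Commute (S 0) (S (n - (m + 1))) from h.comm 0 (n - (m + 1)) (by omega) (by omega)).inv_right
      exact (h1.inv_right.mul_right (ih (by omega))).mul_right h1
  exact key (n - j) (by omega)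

theorem Q'_eq : ∃ W : G, QQ (mir S n) n = UU S n 1 * W ∧ Commute (S 0) W := by
  obtain ⟨m, hm⟩ : ∃ m, n = m + 1 := ⟨n - 1, by have := h.two; omega⟩
  refine ⟨QQ (mir S n) m, ?_, ?_⟩
  · have : QQ (mir S n) (m + 1) = UU S n 1 * QQ (mir S n) m := by
      rw [QQ_succ, UU]
      have e1 : n - 1 = m := by omega
      rw [e1]
    rw [← this]
    congr 1
  · have key : ∀ j, j ≤ m → Commute (S 0) (QQ (mir S n) j) := by
      intro j
      induction j with
      | zero => intro _; exact Commute.one_right _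
      | succ j ih =>
        intro hj
        have h1 := h.U0_comm (n - j) (by omega) (by omega)
        rw [UU, show n - (n - j) = j by omega] at h1
        exact h1.mul_right (ih (by omega))
    exact key m le_rfl

/-- `S k` commutes with `α` -/
theorem ael_comm (k : ℕ) (hk : 1 ≤ k) (hkn : k < n) : Commute (S k) (ael S n) := by
  have hQ : Commute (S k) (QQ (mir S n) n) := by
    obtain ⟨p, hp⟩ : ∃ p, n - k = p + 1 := ⟨n - k - 1, by omega⟩
    have h1 := h.right.QQ_comm p n (by omega) le_rfl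
    rw [← hp, mir, show n - (n - k) = k by omega] at h1
    have := h1.inv_left
    rwa [inv_inv] at this
  exact (h.left.omk k hk hkn).symm.mul_right hQ.inv_right

/-- `UU 1 = δ (S n)⁻¹ δ⁻¹` -/
theorem U_one : UU S n 1 = DD S (n - 1) * (S n)⁻¹ * (DD S (n - 1))⁻¹ := by
  have key : ∀ m, m < n → DD S m * UU S n (m + 1) * (DD S m)⁻¹ = UU S n 1 := by
    intro m
    induction m with
    | zero => intro _; rw [DD]; group
    | succ m ih =>
      intro hm
      have h1 := U_succ (S := S) (m + 1) hm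
      have h2 := ih (by omega)
      rw [DD_succ, ← h2, ← h1]
      group
  have hn := h.two
  have h1 := key (n - 1) (by omega)
  rw [show n - 1 + 1 = n by omega, U_last] at h1
  exact h1.symm

/-- `S n` commutes with the conjugates `TT j`, `j ≤ n - 2` -/
theorem TT_Sn (j : ℕ) (hj : j + 2 ≤ n) : Commute (S n) (TT S j) := by
  induction j with
  | zero => exact (h.comm 0 n hj le_rfl).symm
  | succ j ih =>
    have h1 : Commute (S n) (S (j + 1)) := (h.comm (j + 1) n hj le_rfl).symm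
    exact (h1.inv_right.mul_right (ih (by omega))).mul_right h1

/-- the main identity -/
theorem S0_U1 : S 0 * UU S n 1 * (S 0)⁻¹ = ael S n * UU S n 1 * (ael S n)⁻¹ := by
  have hn := h.two
  -- the left half
  have hQ : ∀ m, m + 1 ≤ n → Commute (S n) (QQ S m) := by
    intro m
    induction m with
    | zero => intro _; exact Commute.one_right _
    | succ m ih =>
      intro hm
      exact (h.TT_Sn m (by omega)).mul_right (ih (by omega))
  have hU := h.U_one
  have e1 := h.left.om_eq n le_rfl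
  have e2 := h.left.om_eq (n - 1) (by omega)
  -- the right half
  have hD : DD (mir S n) (n - 1) = (DD S (n - 1))⁻¹ := Pool.Agent.H10.DT.CT.DD_mir (n - 1) (by omega)
  have e6 := h.right.om_eq n le_rfl
  have hc : ∀ j, 1 ≤ j → j ≤ n → Commute ((mir S n 0 * DD (mir S n) (n - 1)) ^ n) (S j) := by
    intro j hj hjn
    rcases Nat.lt_or_ge j n with h1 | h1
    · have h2 := h.right.omk (n - j) (by omega) (by omega)
      have e3 : mir S n (n - j) = (S j)⁻¹ := by rw [mir, show n - (n - j) = j by omega]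
      rw [e3] at h2
      have := h2.inv_right
      rwa [inv_inv] at this
    · have hj' : j = n := by omega
      subst hj'
      have h2 := h.right.om0 (by omega)
      have h3 : mir S j 0 = (S j)⁻¹ := rfl
      have h4 : Commute ((mir S j 0 * DD (mir S j) (j - 1)) ^ j) (S j)⁻¹ := by rwa [← h3]
      have := h4.inv_right
      rwa [inv_inv] at this
  rw [hD] at e6 hc
  generalize hz : (mir S n 0 * (DD S (n - 1))⁻¹) ^ n = z at e6 hc
  have hDc : ∀ m, m < n → Commute z (DD S m) := by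
    intro m
    induction m with
    | zero => intro _; exact Commute.one_right _
    | succ m ih =>
      intro hm
      exact (ih (by omega)).mul_right (hc (m + 1) (by omega) (by omega))
  have hcU : Commute z (UU S n 1) := by
    rw [h.U_one]
    exact ((hDc _ (by omega)).mul_right (hc n (by omega) le_rfl).inv_right).mul_right (hDc _ (by omega)).inv_right
  -- `α U α⁻¹ = Q U Q⁻¹`
  have e3 : ael S n = QQ S n * z⁻¹ := by
    rw [ael, e1, e6, inv_pow]
    group
  have e4 : ael S n * UU S n 1 * (ael S n)⁻¹ = QQ S n * UU S n 1 * (QQ S n)⁻¹ := by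
    rw [e3]
    have h1 : z⁻¹ * UU S n 1 * z = UU S n 1 := by rw [mul_assoc, ← hcU.eq]; group
    calc QQ S n * z⁻¹ * UU S n 1 * (QQ S n * z⁻¹)⁻¹ = QQ S n * (z⁻¹ * UU S n 1 * z) * (QQ S n)⁻¹ := by group
      _ = _ := by rw [h1]
  rw [e4]
  -- `Q_n = S 0 δ Q_(n-1) δ⁻¹`
  have e5 : QQ S n = S 0 * DD S (n - 1) * QQ S (n - 1) * (DD S (n - 1))⁻¹ := by
    have h1 : QQ S n = (S 0 * DD S (n - 1)) ^ n * ((DD S (n - 1)) ^ n)⁻¹ := by rw [e1]; group
    have h2 : QQ S (n - 1) = (S 0 * DD S (n - 1)) ^ (n - 1) * ((DD S (n - 1)) ^ (n - 1))⁻¹ := by rw [e2]; group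
    obtain ⟨p, hp⟩ : ∃ p, n = p + 1 := ⟨n - 1, by omega⟩
    rw [h1, h2]
    have h3 : (S 0 * DD S (n - 1)) ^ n = (S 0 * DD S (n - 1)) * (S 0 * DD S (n - 1)) ^ (n - 1) := by
      rw [← pow_succ', show n - 1 + 1 = n by omega]
    have h4 : (DD S (n - 1)) ^ n = (DD S (n - 1)) * (DD S (n - 1)) ^ (n - 1) := by
      rw [← pow_succ', show n - 1 + 1 = n by omega]
    rw [h3, h4, mul_inv_rev]
    simp only [mul_assoc]
  have h2 := (hQ (n - 1) (by omega)).inv_left
  rw [e5, hU]
  generalize DD S (n - 1) = D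
  generalize QQ S (n - 1) = Q at h2 ⊢
  calc S 0 * (D * (S n)⁻¹ * D⁻¹) * (S 0)⁻¹ = S 0 * D * ((S n)⁻¹ * Q) * Q⁻¹ * D⁻¹ * (S 0)⁻¹ := by group
    _ = S 0 * D * (Q * (S n)⁻¹) * Q⁻¹ * D⁻¹ * (S 0)⁻¹ := by rw [h2.eq]
    _ = _ := by group

/-- the image of `α` under conjugation by `S 0` -/
theorem S0_ael : S 0 * ael S n * (S 0)⁻¹ = ael S n * UU S n 1 * ael S n * (ael S n * UU S n 1)⁻¹ := by
  have hn := h.two
  have h0 := h.left.om0 (by omega)
  obtain ⟨W, hW, hSW⟩ := h.Q'_eq
  have h1 := h.S0_U1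
  have e1 : ael S n = (S 0 * DD S (n - 1)) ^ n * W⁻¹ * (UU S n 1)⁻¹ := by
    rw [ael, hW]
    group
  have h3 : Commute (S 0) ((S 0 * DD S (n - 1)) ^ n * W⁻¹) := h0.symm.mul_right hSW.inv_right
  generalize (S 0 * DD S (n - 1)) ^ n * W⁻¹ = V at e1 h3
  have e2 : V = ael S n * UU S n 1 := by
    rw [e1]
    group
  have h4 : S 0 * V * (S 0)⁻¹ = V := by rw [h3.eq, mul_inv_cancel_right]
  calc S 0 * ael S n * (S 0)⁻¹ = (S 0 * V * (S 0)⁻¹) * (S 0 * UU S n 1 * (S 0)⁻¹)⁻¹ := by
        rw [e1]; group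
    _ = ael S n * UU S n 1 * (ael S n * UU S n 1 * (ael S n)⁻¹)⁻¹ := by rw [h4, h1, e2]
    _ = ael S n * UU S n 1 * ael S n * (ael S n * UU S n 1)⁻¹ := by group

end CC

end Pool.Agent.H10.CA
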